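import Pool.Agent.Work.MP_db9399_all_helper95.VIZ

/-!
# Rotation of a fan tree

`t` is a proper edge colouring, `u` a vertex, `W` a set of neighbours of `u`; every `x` in `W`
has a planned missed colour `m x`, which is either `b` (missed at `u`) or the colour of an edge
`u y` with `y` in `W` of smaller depth.  Then the colour of any edge `u w`, `w` in `W`, can be
removed from `u`: only edges `u x` with `x` in `W` change, each gets the planned colour of `x`.
-/

set_option autoImplicit false
set_option linter.unusedSectionVars false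

namespace Pool.Agent.Work.MP_db9399_h.helper75

open Finset Classical
open Pool.Agent.Work.MP_db9399_all (nb mis)
open Pool.Agent.Work.MP_db9399_all.VIZ

universe u

variable {V : Type u} [Fintype V]

/-- recolouring one edge -/
noncomputable def rec1 (t : V → V → ℕ) (u w : V) (l : ℕ) (a b : V) : ℕ :=
  if (a = u ∧ b = w) ∨ (a = w ∧ b = u) then l else t a b

theorem rec1_col {K : Finset ℕ} {G : SimpleGraph V} {t : V → V → ℕ} (ht : Col K G t) {u w : V}
    {l : ℕ} (hl : l ∈ K) (huw : G.Adj u w) (hu : ∀ x, G.Adj u x → x ≠ w → t u x ≠ l)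
    (hw : ∀ x, G.Adj w x → x ≠ u → t w x ≠ l) : Col K G (rec1 t u w l) := by
  have hne : u ≠ w := huw.ne
  refine ⟨fun a b => ?_, fun a b hab => ?_, fun a b b' hb hb' e => ?_⟩
  · unfold rec1
    by_cases h1 : (a = u ∧ b = w) ∨ (a = w ∧ b = u)
    · rw [if_pos h1, if_pos (by tauto)]
    · rw [if_neg h1, if_neg (by tauto), ht.symm]
  · unfold rec1
    split_ifs
    · exact hl
    · exact ht.mem a b hab
  · unfold rec1 at e
    by_cases h1 : (a = u ∧ b = w) ∨ (a = w ∧ b = u)
    · by_cases h2 : (a = u ∧ b' = w) ∨ (a = w ∧ b' = u)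
      · rcases h1 with ⟨e1, e2⟩ | ⟨e1, e2⟩
        · rcases h2 with ⟨e3, e4⟩ | ⟨e3, e4⟩
          · rw [e2, e4]
          · exact absurd (e1.symm.trans e3) hne
        · rcases h2 with ⟨e3, e4⟩ | ⟨e3, e4⟩
          · exact absurd (e3.symm.trans e1) hne
          · rw [e2, e4]
      · rw [if_pos h1, if_neg h2] at e
        exfalso
        rcases h1 with ⟨e1, e2⟩ | ⟨e1, e2⟩
        · subst e1
          exact hu b' hb' (fun h => h2 (Or.inl ⟨rfl, h⟩)) e.symm
        · subst e1
          exact hw b' hb' (fun h => h2 (Or.inr ⟨rfl, h⟩)) e.symm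
    · by_cases h2 : (a = u ∧ b' = w) ∨ (a = w ∧ b' = u)
      · rw [if_neg h1, if_pos h2] at e
        exfalso
        rcases h2 with ⟨e1, e2⟩ | ⟨e1, e2⟩
        · subst e1
          exact hu b hb (fun h => h1 (Or.inl ⟨rfl, h⟩)) e
        · subst e1
          exact hw b hb (fun h => h1 (Or.inr ⟨rfl, h⟩)) e
      · rw [if_neg h1, if_neg h2] at e
        exact ht.inj a b b' hb hb' e

/-- **Rotation.** -/
theorem rotate {K : Finset ℕ} {G : SimpleGraph V} (u : V) (W : Finset V) (m : V → ℕ) (b : ℕ)
    (dep : V → ℕ) (n : ℕ) : ∀ (t : V → V → ℕ) (w : V), Col K G t → dep w < n → w ∈ W →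
    (∀ x ∈ W, G.Adj u x) → (∀ x ∈ W, m x ∈ K) → (∀ x ∈ W, Miss G t x (m x)) → Miss G t u b →
    (∀ x ∈ W, m x = b ∨ ∃ y ∈ W, t u y = m x ∧ dep y < dep x) →
    ∃ t' : V → V → ℕ, Col K G t' ∧
      (∀ x y, t' x y ≠ t x y → (x = u ∧ y ∈ W ∧ dep y ≤ dep w ∧ t' x y = m y) ∨
        (y = u ∧ x ∈ W ∧ dep x ≤ dep w ∧ t' x y = m x)) ∧
      t' u w = m w ∧ Miss G t' u (t u w) ∧
      (∀ x, G.Adj u x → t' u x = b ∨ ∃ y, G.Adj u y ∧ y ≠ w ∧ t u y = t' u x) := by
  induction n with
  | zero =>
    intro t w _ h
    exact absurd h (Nat.not_lt_zero _)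
  | succ n ih =>
    intro t w ht hdep hw hadj hmK hmiss hb htree
    have huw := hadj w hw
    rcases htree w hw with hmb | ⟨y, hyW, hty, hdy⟩
    · -- the planned colour is missed at `u`
      have hcol : Col K G (rec1 t u w (m w)) := by
        refine rec1_col ht (hmK w hw) huw (fun x hx _ => ?_) (fun x hx _ => hmiss w hw x hx)
        rw [hmb]
        exact hb x hx
      have huw' : rec1 t u w (m w) u w = m w := by
        unfold rec1
        rw [if_pos (Or.inl ⟨rfl, rfl⟩)]
      have hold : ∀ x, x ≠ w → rec1 t u w (m w) u x = t u x := by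
        intro x hx
        unfold rec1
        rw [if_neg]
        rintro (⟨_, h⟩ | ⟨h, _⟩)
        · exact hx h
        · exact huw.ne h
      refine ⟨rec1 t u w (m w), hcol, fun x y hxy => ?_, huw', fun x hx => ?_, fun x hx => ?_⟩
      · unfold rec1 at hxy ⊢
        by_cases h1 : (x = u ∧ y = w) ∨ (x = w ∧ y = u)
        · rw [if_pos h1]
          rcases h1 with ⟨e1, e2⟩ | ⟨e1, e2⟩
          · left
            subst e2
            exact ⟨e1, hw, le_rfl, rfl⟩
          · right
            subst e1
            exact ⟨e2, hw, le_rfl, rfl⟩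
        · rw [if_neg h1] at hxy
          exact absurd rfl hxy
      · by_cases hxw : x = w
        · rw [hxw, huw', hmb]
          exact (hb w huw).symm
        · rw [hold x hxw]
          intro e
          exact hxw (ht.inj u x w hx huw e)
      · by_cases hxw : x = w
        · left
          rw [hxw, huw', hmb]
        · right
          exact ⟨x, hx, hxw, (hold x hxw).symm⟩
    · -- first free the planned colour at `u`
      obtain ⟨t₁, ht₁, hch, hy1, hy2, hy3⟩ := ih t y ht (by omega) hyW hadj hmK hmiss hb htree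
      have hyw : y ≠ w := by
        rintro rfl
        exact absurd hdy (lt_irrefl _)
      have huyne : ∀ x, G.Adj w x → t₁ w x = t w x := by
        intro x hx
        by_contra hne
        rcases hch w x hne with ⟨e1, _⟩ | ⟨_, _, h3, _⟩
        · exact huw.ne e1.symm
        · omega
      have hwu : t₁ u w = t u w := by
        rw [ht₁.symm, ht.symm u w]
        exact huyne u huw.symm
      have hcol : Col K G (rec1 t₁ u w (m w)) := by
        refine rec1_col ht₁ (hmK w hw) huw (fun x hx _ => ?_) (fun x hx _ => ?_)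
        · have := hy2 x hx
          rwa [hty] at this
        · rw [huyne x hx]
          exact hmiss w hw x hx
      have huw' : rec1 t₁ u w (m w) u w = m w := by
        unfold rec1
        rw [if_pos (Or.inl ⟨rfl, rfl⟩)]
      have hold : ∀ x, x ≠ w → rec1 t₁ u w (m w) u x = t₁ u x := by
        intro x hx
        unfold rec1
        rw [if_neg]
        rintro (⟨_, h⟩ | ⟨h, _⟩)
        · exact hx h
        · exact huw.ne h
      refine ⟨rec1 t₁ u w (m w), hcol, fun x z hxz => ?_, huw', fun x hx => ?_, fun x hx => ?_⟩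
      · by_cases h1 : (x = u ∧ z = w) ∨ (x = w ∧ z = u)
        · have hval : rec1 t₁ u w (m w) x z = m w := by
            unfold rec1
            rw [if_pos h1]
          rcases h1 with ⟨e1, e2⟩ | ⟨e1, e2⟩
          · left
            rw [hval, e2]
            exact ⟨e1, hw, le_rfl, rfl⟩
          · right
            rw [hval, e1]
            exact ⟨e2, hw, le_rfl, rfl⟩
        · have hval : rec1 t₁ u w (m w) x z = t₁ x z := by
            unfold rec1
            rw [if_neg h1]
          rw [hval] at hxz ⊢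
          rcases hch x z hxz with ⟨e1, e2, e3, e4⟩ | ⟨e1, e2, e3, e4⟩
          · exact Or.inl ⟨e1, e2, by omega, e4⟩
          · exact Or.inr ⟨e1, e2, by omega, e4⟩
      · by_cases hxw : x = w
        · rw [hxw, huw']
          intro e
          exact hmiss w hw u huw.symm (by rw [ht.symm, e])
        · rw [hold x hxw]
          intro e
          rw [← hwu] at e
          exact hxw (ht₁.inj u x w hx huw e)
      · by_cases hxw : x = w
        · right
          refine ⟨y, hadj y hyW, hyw, ?_⟩
          rw [hxw, huw', hty]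
        · rw [hold x hxw]
          rcases hy3 x hx with h | ⟨z, hz1, hz2, hz3⟩
          · exact Or.inl h
          · by_cases hzw : z = w
            · exfalso
              rw [hzw, ← hwu] at hz3
              exact hxw (ht₁.inj u x w hx huw hz3.symm)
            · exact Or.inr ⟨z, hz1, hzw, hz3⟩

/-- consequences in terms of missed colours -/
theorem rotate' {K : Finset ℕ} {G : SimpleGraph V} (u : V) (W : Finset V) (m : V → ℕ) (b : ℕ)
    (dep : V → ℕ) (t : V → V → ℕ) (w : V) (ht : Col K G t) (hw : w ∈ W)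
    (hadj : ∀ x ∈ W, G.Adj u x) (hmK : ∀ x ∈ W, m x ∈ K) (hmiss : ∀ x ∈ W, Miss G t x (m x))
    (hb : Miss G t u b)
    (htree : ∀ x ∈ W, m x = b ∨ ∃ y ∈ W, t u y = m x ∧ dep y < dep x) :
    ∃ t' : V → V → ℕ, Col K G t' ∧
      -- only edges `u x`, `x` in `W`, change, and they get the planned colours
      (∀ x y, t' x y ≠ t x y → (x = u ∧ y ∈ W ∧ t' x y = m y) ∨ (y = u ∧ x ∈ W ∧ t' x y = m x)) ∧
      t' u w = m w ∧ Miss G t' u (t u w) ∧
      (∀ x l, x ≠ u → Miss G t x l → (x ∈ W → l ≠ m x) → Miss G t' x l) ∧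
      (∀ l, l ≠ b → Miss G t u l → Miss G t' u l) := by
  obtain ⟨t', h1, h2, h3, h4, h5⟩ := rotate u W m b dep (dep w + 1) t w ht (Nat.lt_succ_self _) hw
    hadj hmK hmiss hb htree
  refine ⟨t', h1, fun x y hxy => ?_, h3, h4, fun x l hx hl hlm y hy e => ?_, fun l hl hml x hx e => ?_⟩
  · rcases h2 x y hxy with ⟨a1, a2, _, a4⟩ | ⟨a1, a2, _, a4⟩
    · exact Or.inl ⟨a1, a2, a4⟩
    · exact Or.inr ⟨a1, a2, a4⟩
  · by_cases hne : t' x y = t x y
    · exact hl y hy (hne.symm.trans e)
    · rcases h2 x y hne with ⟨a1, _⟩ | ⟨_, a2, _, a4⟩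
      · exact hx a1
      · exact hlm a2 (e.symm.trans a4)
  · rcases h5 x hx with h6 | ⟨y, hy1, _, hy3⟩
    · exact hl (e.symm.trans h6)
    · exact hml y hy1 (hy3.trans e)

end Pool.Agent.Work.MP_db9399_h.helper75
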