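import Pool.Agent.Work.MP_db9399_core_helper75.Four

/-!
# Fournier's theorem, forest core

A graph of maximum degree at most `D` whose vertices of degree `D` induce a forest has a proper
edge colouring with `D` colours.  The forest is given by a rank: every vertex of `B` has at most
one neighbour of at most its own rank in `B` (for a matching any constant rank will do).
-/

set_option autoImplicit false
set_option linter.unusedSectionVars false

namespace Pool.Agent.Work.MP_db9399_h.helper75

open Finset Classical
open Pool.Agent.Work.MP_db9399_all (nb mis)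
open Pool.Agent.Work.MP_db9399_all.VIZ

universe u

variable {V : Type u} [Fintype V]

/-- insertion of a vertex, one neighbour may have only one missing colour -/
theorem insert_vertex' (G : SimpleGraph V) (K : Finset ℕ) (W : Finset V) (v u₀ : V) (hv : v ∉ W)
    (t : V → V → ℕ) (ht : Col K (inside G W) t) (hS : (nb G v ∩ W).card ≤ K.card)
    (h1 : ∀ u ∈ nb G v ∩ W, (nb G u ∩ W).card + 1 ≤ K.card)
    (h2 : ∀ u ∈ nb G v ∩ W, u ≠ u₀ → (nb G u ∩ W).card + 2 ≤ K.card) :
    ∃ t' : V → V → ℕ, Col K (inside G (insert v W)) t' := by
  set S := nb G v ∩ W with hSdef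
  set M : V → Finset ℕ := fun u => K.filter (fun l => Miss (inside G W) t u l) with hM
  have hMcard : ∀ u, K.card ≤ (M u).card + (nb G u ∩ W).card := by
    intro u
    have h1 : K \ (M u) ⊆ (nb G u ∩ W).image (t u) := by
      intro l hl
      rw [Finset.mem_sdiff] at hl
      have h3 : ¬ Miss (inside G W) t u l := fun h => hl.2 (mem_filter.2 ⟨hl.1, h⟩)
      unfold Miss at h3
      push Not at h3
      obtain ⟨b, hb, hbl⟩ := h3
      exact mem_image.2 ⟨b, Finset.mem_inter.2 ⟨mem_filter.2 ⟨mem_univ _, hb.1⟩, hb.2.2⟩, hbl⟩
    have h3 := (Finset.card_le_card h1).trans Finset.card_image_le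
    rw [Finset.card_sdiff_of_subset (Finset.filter_subset _ _)] at h3
    have h5 : (M u).card ≤ K.card := Finset.card_le_card (Finset.filter_subset _ _)
    have h7 : (M u).card = (K.filter (fun l => Miss (inside G W) t u l)).card := rfl
    omega
  obtain ⟨t', s, ht', hsinj, hs⟩ := main K.card K rfl
    (inside G W) t S M u₀ ht hS (fun u _ => Finset.filter_subset _ _)
    (fun u _ l hl => (mem_filter.1 hl).2)
    (fun u hu => by have := hMcard u; have := h1 u hu; omega)
    (fun u hu hne => by have := hMcard u; have := h2 u hu hne; omega)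
  have hSmem : ∀ b, (inside G (insert v W)).Adj v b → b ∈ S := by
    intro b hb
    refine Finset.mem_inter.2 ⟨mem_filter.2 ⟨mem_univ _, hb.1⟩, ?_⟩
    rcases Finset.mem_insert.1 hb.2.2 with h | h
    · subst h
      exact absurd hb.1 (G.loopless.irrefl _)
    · exact h
  have hold : ∀ a b, a ≠ v → b ≠ v → (inside G (insert v W)).Adj a b →
      (inside G W).Adj a b := fun a b ha hb h =>
    ⟨h.1, (Finset.mem_insert.1 h.2.1).resolve_left ha, (Finset.mem_insert.1 h.2.2).resolve_left hb⟩
  refine ⟨fun a b => if a = v then s b else if b = v then s a else t' a b, fun a b => ?_,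
    fun a b hab => ?_, fun a b b' hb hb' e => ?_⟩
  · by_cases ha : a = v
    · by_cases hb : b = v
      · rw [ha, hb]
      · rw [if_pos ha, if_neg hb, if_pos ha]
    · by_cases hb : b = v
      · rw [if_neg ha, if_pos hb, if_pos hb]
      · rw [if_neg ha, if_neg hb, if_neg hb, if_neg ha, ht'.symm a b]
  · by_cases ha : a = v
    · rw [if_pos ha]
      subst ha
      exact (hs b (hSmem b hab)).1
    · rw [if_neg ha]
      by_cases hb : b = v
      · rw [if_pos hb]
        subst hb
        exact (hs a (hSmem a hab.symm)).1
      · rw [if_neg hb]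
        exact ht'.mem a b (hold a b ha hb hab)
  · by_cases ha : a = v
    · rw [if_pos ha, if_pos ha] at e
      subst ha
      exact hsinj (Finset.mem_coe.2 (hSmem b hb)) (Finset.mem_coe.2 (hSmem b' hb')) e
    · rw [if_neg ha, if_neg ha] at e
      by_cases hbv : b = v
      · by_cases hbv' : b' = v
        · rw [hbv, hbv']
        · rw [if_pos hbv, if_neg hbv'] at e
          subst hbv
          exact absurd e.symm ((hs a (hSmem a hb.symm)).2 b' (hold a b' ha hbv' hb'))
      · by_cases hbv' : b' = v
        · rw [if_neg hbv, if_pos hbv'] at e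
          subst hbv'
          exact absurd e ((hs a (hSmem a hb'.symm)).2 b (hold a b ha hbv hb))
        · rw [if_neg hbv, if_neg hbv'] at e
          exact ht'.inj a b b' (hold a b ha hbv hb) (hold a b' ha hbv' hb') e

/-- **Fournier's theorem**, forest core. -/
theorem four_forest (G : SimpleGraph V) (D : ℕ) (B : Finset V) (rk : V → ℕ)
    (h1 : ∀ v, v ∉ B → (nb G v).card + 1 ≤ D) (h2 : ∀ v ∈ B, (nb G v).card ≤ D)
    (hB : ∀ v ∈ B, ((nb G v ∩ B).filter (fun u => rk u ≤ rk v)).card ≤ 1) :
    ∃ t : V → V → ℕ, Col (range D) G t := by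
  have key : ∀ n : ℕ, ∀ P : Finset V, P ⊆ B → P.card = n →
      (∀ v ∈ P, ∀ u ∈ B, rk u < rk v → u ∈ P) →
      ∃ t : V → V → ℕ, Col (range D) (inside G ((univ \ B) ∪ P)) t := by
    intro n
    induction n with
    | zero =>
      intro P _ hP0 _
      rw [card_eq_zero] at hP0
      subst hP0
      rcases Nat.eq_zero_or_pos D with h0 | hD
      · refine ⟨fun _ _ => 0, fun _ _ => rfl, fun a b h => ?_, fun a b b' h _ _ => ?_⟩
        all_goals
          exfalso
          have ha : a ∉ B := by
            have := h.2.1
            rw [union_empty] at this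
            exact (mem_sdiff.1 this).2
          have := h1 a ha
          omega
      · obtain ⟨t, ht⟩ := vizing_aux (inside G (univ \ B)) (D - 1) (by
          intro v
          by_cases hv : v ∈ B
          · have : nb (inside G (univ \ B)) v = ∅ := by
              rw [eq_empty_iff_forall_notMem]
              intro w hw
              exact (mem_sdiff.1 (mem_filter.1 hw).2.2.1).2 hv
            rw [this]
            simp
          · have hsub : nb (inside G (univ \ B)) v ⊆ nb G v := by
              intro w hw
              exact mem_filter.2 ⟨mem_univ _, (mem_filter.1 hw).2.1⟩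
            have := card_le_card hsub
            have := h1 v hv
            omega) univ
        have hD1 : D - 1 + 1 = D := by omega
        rw [hD1] at ht
        refine ⟨t, ht.symm, fun a b h => ?_, fun a b b' h h' e => ?_⟩
        · rw [union_empty] at h
          exact ht.mem a b ⟨h, mem_univ _, mem_univ _⟩
        · rw [union_empty] at h h'
          exact ht.inj a b b' ⟨h, mem_univ _, mem_univ _⟩ ⟨h', mem_univ _, mem_univ _⟩ e
    | succ n ih =>
      intro P hP hPn hclo
      have hne : P.Nonempty := by
        rw [← card_pos]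
        omega
      obtain ⟨v, hvP, hmax⟩ := exists_max_image P rk hne
      have hvB := hP hvP
      have hP' : P.erase v ⊆ B := (erase_subset _ _).trans hP
      obtain ⟨t, ht⟩ := ih (P.erase v) hP' (by rw [card_erase_of_mem hvP]; omega) (by
        intro w hw u hu hlt
        rw [mem_erase] at hw ⊢
        refine ⟨?_, hclo w hw.2 u hu hlt⟩
        rintro rfl
        have := hmax w hw.2
        omega)
      have hvW : v ∉ (univ \ B) ∪ P.erase v := by
        rw [mem_union, mem_sdiff, not_or]
        exact ⟨fun h => h.2 hvB, fun h => (mem_erase.1 h).1 rfl⟩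
      -- the possible core neighbour
      have hu0 : ∃ u₀ : V, ∀ u ∈ nb G v ∩ P.erase v, u = u₀ := by
        by_cases hem : (nb G v ∩ P.erase v).Nonempty
        · obtain ⟨u₀, hu₀⟩ := hem
          refine ⟨u₀, fun u hu => ?_⟩
          have hin : ∀ w ∈ nb G v ∩ P.erase v, w ∈ (nb G v ∩ B).filter (fun u => rk u ≤ rk v) := by
            intro w hw
            rw [mem_inter] at hw
            exact mem_filter.2 ⟨mem_inter.2 ⟨hw.1, hP' hw.2⟩, hmax w (mem_erase.1 hw.2).2⟩
          exact card_le_one.1 (hB v hvB) u (hin u hu) u₀ (hin u₀ hu₀)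
        · refine ⟨v, fun u hu => absurd ⟨u, hu⟩ hem⟩
      obtain ⟨u₀, hu₀⟩ := hu0
      have hdrop : ∀ u ∈ nb G v ∩ ((univ \ B) ∪ P.erase v),
          (nb G u ∩ ((univ \ B) ∪ P.erase v)).card + 1 ≤ (nb G u).card := by
        intro u hu
        have huv : G.Adj v u := (mem_filter.1 (mem_inter.1 hu).1).2
        have hvu : v ∈ nb G u := mem_filter.2 ⟨mem_univ _, huv.symm⟩
        have hsub : nb G u ∩ ((univ \ B) ∪ P.erase v) ⊆ (nb G u).erase v := by
          intro w hw
          rw [mem_inter] at hw
          rw [mem_erase]
          refine ⟨?_, hw.1⟩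
          rintro rfl
          exact hvW hw.2
        have e2 := card_le_card hsub
        rw [card_erase_of_mem hvu] at e2
        have e3 := card_pos.2 ⟨v, hvu⟩
        omega
      obtain ⟨t', ht'⟩ := insert_vertex' G (range D) ((univ \ B) ∪ P.erase v) v u₀ hvW t ht
        (by
          rw [card_range]
          exact (card_le_card inter_subset_left).trans (h2 v hvB))
        (by
          intro u hu
          rw [card_range]
          have e0 := hdrop u hu
          by_cases huB : u ∈ B
          · have := h2 u huB
            omega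
          · have := h1 u huB
            omega)
        (by
          intro u hu hne0
          rw [card_range]
          have e0 := hdrop u hu
          have huB : u ∉ B := by
            intro huB
            refine hne0 (hu₀ u ?_)
            rw [mem_inter] at hu ⊢
            refine ⟨hu.1, ?_⟩
            rcases mem_union.1 hu.2 with h | h
            · exact absurd huB (mem_sdiff.1 h).2
            · exact h
          have := h1 u huB
          omega)
      refine ⟨t', ?_⟩
      have hU : insert v ((univ \ B) ∪ P.erase v) = (univ \ B) ∪ P := by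
        rw [← union_insert, insert_erase hvP]
      rwa [hU] at ht'
  obtain ⟨t, ht⟩ := key B.card B Subset.rfl rfl (fun _ _ u hu _ => hu)
  have hU : (univ \ B) ∪ B = univ := by
    rw [sdiff_union_self_eq_union]
    simp
  rw [hU] at ht
  exact ⟨t, ht.symm, fun a b h => ht.mem a b ⟨h, mem_univ _, mem_univ _⟩,
    fun a b b' h h' e => ht.inj a b b' ⟨h, mem_univ _, mem_univ _⟩ ⟨h', mem_univ _, mem_univ _⟩ e⟩

/-- the case of a matching: every vertex of `B` has at most one neighbour in `B`. -/
theorem four_matching (G : SimpleGraph V) (D : ℕ) (B : Finset V)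
    (h1 : ∀ v, v ∉ B → (nb G v).card + 1 ≤ D) (h2 : ∀ v ∈ B, (nb G v).card ≤ D)
    (hB : ∀ v ∈ B, (nb G v ∩ B).card ≤ 1) :
    ∃ t : V → V → ℕ, Col (range D) G t :=
  four_forest G D B (fun _ => 0) h1 h2 (fun v hv => (card_filter_le _ _).trans (hB v hv))

end Pool.Agent.Work.MP_db9399_h.helper75
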